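import Pool.Agent.W5h69.FM.Defs2

/-! (BG) the hyperoctahedral group -/

set_option autoImplicit false

namespace Pool.Agent.W5h69.FM

namespace BG

theorem bil_one {g : ℕ} (x y : Vr g) : bil (1 : Matrix (Fin g) (Fin g) ℝ) x y = ∑ i, x i * y i := by
  simp [bil, Matrix.one_apply]

/-- the simple coroots -/
def rho (g : ℕ) (i : Fin g) : Vr g := fun a =>
  (if a = i then 1 else 0) - (if (a : ℕ) = (i : ℕ) + 1 then 1 else 0)

/-- the reflections -/
def refl (g : ℕ) (i : Fin g) : Matrix (Fin g) (Fin g) ℤ :=
  if h : (i : ℕ) + 1 < g then Matrix.of fun a b => if Equiv.swap i ⟨i + 1, h⟩ a = b then 1 else 0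
  else Matrix.of fun a b => if a = b then (if a = i then -1 else 1) else 0

theorem bil_rho {g : ℕ} (i : Fin g) (x : Vr g) :
    bil (1 : Matrix (Fin g) (Fin g) ℝ) (rho g i) x =
      x i - if h : (i : ℕ) + 1 < g then x ⟨i + 1, h⟩ else 0 := by
  rw [bil_one]
  simp only [rho, sub_mul, Finset.sum_sub_distrib, ite_mul, one_mul, zero_mul,
    Finset.sum_ite_eq', Finset.mem_univ, if_true]
  congr 1
  split_ifs with h
  · have : ∀ k : Fin g, ((k : ℕ) = (i : ℕ) + 1) ↔ k = ⟨i + 1, h⟩ := fun k => by
      rw [Fin.ext_iff]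
    simp only [this, Finset.sum_ite_eq', Finset.mem_univ, if_true]
  · refine Finset.sum_eq_zero fun k _ => if_neg fun hk => h ?_
    rw [← hk]
    exact k.2

theorem refl_mul {g : ℕ} (i : Fin g) : BG.refl g i * (BG.refl g i).transpose = 1 := by
  ext a b
  rw [Matrix.mul_apply]
  simp only [Matrix.transpose_apply]
  unfold BG.refl
  split_ifs with h
  · simp only [Matrix.of_apply, Matrix.one_apply, mul_ite, mul_one, mul_zero]
    simp only [← ite_and]
    rw [Finset.sum_eq_single (Equiv.swap i ⟨i + 1, h⟩ a)]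
    · by_cases hab : a = b
      · subst hab
        simp
      · simp only [and_true, hab, if_false]
        refine if_neg fun h' => hab ?_
        exact (Equiv.injective _ h').symm
    · intro c _ hc
      refine if_neg fun h' => hc ?_
      exact h'.2.symm
    · intro h'
      exact absurd (Finset.mem_univ _) h'
  · simp only [Matrix.of_apply, Matrix.one_apply]
    rw [Finset.sum_eq_single a]
    · by_cases hab : a = b
      · subst hab
        split_ifs <;> simp
      · have hba : ¬ b = a := fun h' => hab h'.symm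
        simp [hab, hba]
    · intro c _ hc
      have : ¬ a = c := fun h' => hc h'.symm
      simp [this]
    · intro h'
      exact absurd (Finset.mem_univ _) h'

theorem conn_step {g : ℕ} (i j : Fin g) (h : (i : ℕ) + 1 = j) :
    bil (1 : Matrix (Fin g) (Fin g) ℝ) (rho g i) (rho g j) ≠ 0 ∧
      bil (1 : Matrix (Fin g) (Fin g) ℝ) (rho g j) (rho g i) ≠ 0 := by
  have h1 : bil (1 : Matrix (Fin g) (Fin g) ℝ) (rho g i) (rho g j) = -1 := by
    have hlt : (i : ℕ) + 1 < g := by rw [h]; exact j.2
    have hij : i ≠ j := by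
      rintro rfl
      omega
    have hj : (⟨i + 1, hlt⟩ : Fin g) = j := Fin.ext h
    rw [bil_rho, dif_pos hlt, hj]
    have h2 : ¬ (i : ℕ) = (j : ℕ) + 1 := by omega
    simp [rho, hij, h2]
  have h2 : bil (1 : Matrix (Fin g) (Fin g) ℝ) (rho g j) (rho g i) = -1 := by
    rw [← h1, bil_one, bil_one]
    exact Finset.sum_congr rfl fun k _ => mul_comm _ _
  rw [h1, h2]
  norm_num

theorem conn {g : ℕ} : ∀ (n : ℕ) (i j : Fin g), (i : ℕ) + n = j →
    Relation.ReflTransGen
      (fun a b => bil (1 : Matrix (Fin g) (Fin g) ℝ) (rho g a) (rho g b) ≠ 0) i j ∧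
    Relation.ReflTransGen
      (fun a b => bil (1 : Matrix (Fin g) (Fin g) ℝ) (rho g a) (rho g b) ≠ 0) j i
  | 0, i, j, h => by
    have : i = j := Fin.ext (by omega)
    subst this
    exact ⟨.refl, .refl⟩
  | n + 1, i, j, h => by
    have hlt : (i : ℕ) + 1 < g := by have := j.2; omega
    obtain ⟨h1, h2⟩ := conn n ⟨i + 1, hlt⟩ j (by simp only; omega)
    obtain ⟨h3, h4⟩ := conn_step i ⟨i + 1, hlt⟩ rfl
    exact ⟨h1.head h3, h2.tail h4⟩

end BG

open BG in
theorem bg : S_BG := by
  classical
  intro g
  have hind : LinearIndependent ℝ (rho g) := by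
    have h1 : (Matrix.of (rho g)).det = 1 := by
      rw [Matrix.det_of_upperTriangular]
      · refine Finset.prod_eq_one fun i _ => ?_
        simp [rho]
      · intro a b hab
        have hab' : (b : ℕ) < a := hab
        have h1 : ¬ b = a := fun h => by rw [h] at hab'; omega
        have h2 : ¬ (b : ℕ) = (a : ℕ) + 1 := by omega
        simp [rho, h1, h2]
    exact Matrix.linearIndependent_rows_of_det_ne_zero (by change (Matrix.of (rho g)).det ≠ 0; rw [h1]; exact one_ne_zero)
  refine ⟨⟨1, fun i j => by rw [Matrix.one_apply, Matrix.one_apply]; simp [eq_comm], ?_, rho g,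
    hind, ?_, BG.refl g, ?_⟩, rfl, ?_⟩
  · intro x hx
    rw [bil_one]
    obtain ⟨i, hi⟩ := Function.ne_iff.1 hx
    refine Finset.sum_pos' (fun k _ => mul_self_nonneg _) ⟨i, Finset.mem_univ _, ?_⟩
    exact mul_self_pos.2 hi
  · intro i j
    rcases le_total (i : ℕ) j with h | h
    · exact (conn _ i j (Nat.add_sub_of_le h)).1
    · exact (conn _ j i (Nat.add_sub_of_le h)).2
  · intro i x a
    rw [bil_rho, bil_rho]
    rw [Pi.sub_apply, Pi.smul_apply, smul_eq_mul]
    by_cases h : (i : ℕ) + 1 < g
    · rw [dif_pos h, dif_pos h]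
      have hne : (⟨i + 1, h⟩ : Fin g) ≠ i := by
        intro h'
        have := congrArg Fin.val h'
        simp at this
      have e1 : rho g i i = 1 := by simp [rho]
      have e2 : rho g i ⟨i + 1, h⟩ = -1 := by simp [rho, hne]
      rw [e1, e2]
      have e3 : ∑ b, (BG.refl g i a b : ℝ) * x b = x (Equiv.swap i ⟨i + 1, h⟩ a) := by
        simp [BG.refl, h]
      rw [e3]
      rcases eq_or_ne a i with rfl | hai
      · rw [Equiv.swap_apply_left, e1]
        ring
      · rcases eq_or_ne a ⟨i + 1, h⟩ with rfl | haj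
        · rw [Equiv.swap_apply_right, e2]
          ring
        · have e4 : rho g i a = 0 := by
            have : ¬ (a : ℕ) = (i : ℕ) + 1 := fun h' => haj (Fin.ext h')
            simp [rho, hai, this]
          rw [Equiv.swap_apply_of_ne_of_ne hai haj, e4]
          ring
    · rw [dif_neg h, dif_neg h]
      have e1 : rho g i i = 1 := by simp [rho]
      rw [e1]
      have e3 : ∑ b, (BG.refl g i a b : ℝ) * x b = (if a = i then -1 else 1) * x a := by
        simp [BG.refl, h]
      rw [e3]
      by_cases hai : a = i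
      · subst hai
        rw [e1]
        simp
        ring
      · have e4 : rho g i a = 0 := by
          have : ¬ (a : ℕ) = (i : ℕ) + 1 := fun h' => h (by rw [← h']; exact a.2)
          simp [rho, hai, this]
        rw [e4]
        simp [hai]
  · intro i
    rw [SymplecticGroup.mem_iff]
    have h1 := refl_mul i
    change blockW (BG.refl g i) * Matrix.J (Fin g) ℤ * (blockW (BG.refl g i)).transpose = _
    rw [blockW, Matrix.J, Matrix.fromBlocks_transpose, Matrix.fromBlocks_multiply,
      Matrix.fromBlocks_multiply]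
    simp [h1]

end Pool.Agent.W5h69.FM
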