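import Pool.Agent.W5h69.FM.Defs2

namespace Pool.Agent.W5h69.FM

/-- the map `y ↦ (bil B (ρ i) y)_i` -/
noncomputable def pairMap {r : ℕ} (B : Matrix (Fin r) (Fin r) ℝ) (ρ : Fin r → Vr r) :
    Vr r →ₗ[ℝ] Vr r where
  toFun y := fun i => bil B (ρ i) y
  map_add' x y := by
    funext i
    simp only [bil, Pi.add_apply, mul_add, Finset.sum_add_distrib]
  map_smul' c y := by
    funext i
    simp only [bil, Pi.smul_apply, smul_eq_mul, RingHom.id_apply, Finset.mul_sum]
    refine Finset.sum_congr rfl fun a _ => Finset.sum_congr rfl fun b _ => ?_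
    ring

/-- `bil` is linear in the first variable -/
noncomputable def leftMap {r : ℕ} (B : Matrix (Fin r) (Fin r) ℝ) (y : Vr r) : Vr r →ₗ[ℝ] ℝ where
  toFun x := bil B x y
  map_add' x x' := by
    simp only [bil, Pi.add_apply, mul_add, add_mul, Finset.sum_add_distrib]
  map_smul' c x := by
    simp only [bil, Pi.smul_apply, smul_eq_mul, RingHom.id_apply, Finset.mul_sum]
    refine Finset.sum_congr rfl fun a _ => Finset.sum_congr rfl fun b _ => ?_
    ring

theorem dual : S_DUAL := by
  intro r W
  have hinj : Function.Injective (pairMap W.B W.ρ) := by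
    rw [injective_iff_map_eq_zero]
    intro y hy
    by_contra hne
    have h0 : leftMap W.B y = 0 := by
      have hspan : ⊤ ≤ Submodule.span ℝ (Set.range W.ρ) := by
        rw [W.indep.span_eq_top_of_card_eq_finrank' (by simp)]
      have : ⊤ ≤ LinearMap.ker (leftMap W.B y) := by
        refine hspan.trans (Submodule.span_le.2 ?_)
        rintro _ ⟨i, rfl⟩
        exact congrFun hy i
      exact LinearMap.ext fun x => this (x := x) trivial
    have h1 : bil W.B y y = 0 := by
      have := congrArg (fun f => f y) h0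
      exact this
    exact (W.pos y hne).ne' h1
  have hsurj : Function.Surjective (pairMap W.B W.ρ) :=
    LinearMap.injective_iff_surjective.1 hinj
  choose ϖ hϖ using fun j : Fin r => hsurj (Pi.single j 1)
  refine ⟨⟨W.B, W.symm, W.ρ, ϖ, ?_, ?_, W.conn⟩, rfl, rfl⟩
  · intro i j
    have := congrFun (hϖ j) i
    have h2 : bil W.B (W.ρ i) (ϖ j) = (Pi.single j (1 : ℝ) : Vr r) i := this
    rw [h2, Pi.single_apply]
  · intro i
    exact (W.pos _ (W.indep.ne_zero i)).ne'

end Pool.Agent.W5h69.FM
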