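import Pool.Agent.W5h69.FM.Defs2

/-! (MP): the reflections preserve the Haar measure of `T × T`. -/

set_option autoImplicit false

open MeasureTheory

noncomputable section

namespace Pool.Agent.W5h69.FM

/-- the action of an integer matrix on `T` -/
def mpHom {r : ℕ} (S : Matrix (Fin r) (Fin r) ℤ) : To r →+ To r where
  toFun x := fun a => ∑ b, S a b • x b
  map_zero' := by
    ext a
    simp
  map_add' x y := by
    ext a
    simp [smul_add, Finset.sum_add_distrib]

lemma mp_cont {r : ℕ} (S : Matrix (Fin r) (Fin r) ℤ) : Continuous (mpHom S) := by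
  refine continuous_pi fun a => ?_
  show Continuous fun x : To r => ∑ b, S a b • x b
  exact continuous_finsetSum _ fun b _ => (continuous_apply b).zsmul (S a b)

lemma mp_invol {r : ℕ} {S : Matrix (Fin r) (Fin r) ℤ} (h : S * S = 1) (x : To r) :
    mpHom S (mpHom S x) = x := by
  funext a
  show ∑ b, S a b • (∑ c, S b c • x c) = x a
  have e1 : ∑ b, S a b • (∑ c, S b c • x c) = ∑ c, ((S * S) a c) • x c := by
    simp only [Finset.smul_sum, smul_smul]
    rw [Finset.sum_comm]
    refine Finset.sum_congr rfl fun c _ => ?_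
    rw [Matrix.mul_apply, Finset.sum_smul]
  rw [e1, h, Finset.sum_eq_single a]
  · rw [Matrix.one_apply_eq, one_smul]
  · intro c _ hc
    rw [Matrix.one_apply_ne hc.symm, zero_smul]
  · intro ha
    exact absurd (Finset.mem_univ a) ha

lemma mp_torus {r : ℕ} {S : Matrix (Fin r) (Fin r) ℤ} (h : S * S = 1) :
    MeasurePreserving (mpHom S) (volume : Measure (To r)) volume := by
  refine AddMonoidHom.measurePreserving (mp_cont S) (fun x => ⟨mpHom S x, mp_invol h x⟩) rfl

lemma mp_bil_sub {r : ℕ} (B : Matrix (Fin r) (Fin r) ℝ) (x y z : Vr r) (c : ℝ) :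
    bil B x (y - c • z) = bil B x y - c * bil B x z := by
  unfold bil
  rw [Finset.mul_sum, ← Finset.sum_sub_distrib]
  refine Finset.sum_congr rfl fun i _ => ?_
  rw [Finset.mul_sum, ← Finset.sum_sub_distrib]
  refine Finset.sum_congr rfl fun j _ => ?_
  simp only [Pi.sub_apply, Pi.smul_apply, smul_eq_mul]
  ring

lemma mp_sq {r : ℕ} (W : Weyl r) (i : Fin r) : W.S i * W.S i = 1 := by
  set M : Matrix (Fin r) (Fin r) ℝ := (W.S i).map (Int.cast : ℤ → ℝ) with hM
  have h0 : bil W.B (W.ρ i) (W.ρ i) ≠ 0 := (W.pos _ (W.indep.ne_zero i)).ne'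
  have h1 : ∀ x : Vr r, M.mulVec x =
      x - (2 * bil W.B (W.ρ i) x / bil W.B (W.ρ i) (W.ρ i)) • W.ρ i := by
    intro x
    funext a
    exact W.refl i x a
  have h2 : ∀ x : Vr r, (M * M).mulVec x = x := by
    intro x
    rw [← Matrix.mulVec_mulVec, h1 (M.mulVec x), h1 x, mp_bil_sub]
    funext a
    simp only [Pi.sub_apply, Pi.smul_apply, smul_eq_mul]
    field_simp
    ring
  have h3 : M * M = 1 := by
    ext a b
    have h4 := congrFun (h2 (Pi.single b 1)) a
    rw [Matrix.mulVec_single_one] at h4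
    rw [Matrix.one_apply]
    by_cases hab : a = b
    · rw [if_pos hab]
      subst hab
      simpa using h4
    · rw [if_neg hab]
      rw [Pi.single_eq_of_ne hab] at h4
      exact h4
  have h5 : (W.S i * W.S i).map (Int.cast : ℤ → ℝ) = M * M := by
    ext a b
    simp only [Matrix.map_apply, Matrix.mul_apply, hM]
    push_cast
    rfl
  ext a b
  have h6 := congrFun (congrFun (h5.trans h3) a) b
  rw [Matrix.map_apply] at h6
  have h7 : ((1 : Matrix (Fin r) (Fin r) ℝ) a b) = (((1 : Matrix (Fin r) (Fin r) ℤ) a b : ℤ) : ℝ) := by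
    by_cases hab : a = b
    · subst hab
      simp
    · rw [Matrix.one_apply_ne hab, Matrix.one_apply_ne hab]
      simp
  rw [h7] at h6
  exact_mod_cast h6

/-- (MP) -/
theorem mp : S_MP := by
  intro r W i
  have h := mp_torus (mp_sq W i)
  have h2 := h.prod h
  have e : actT (blockW (W.S i)) = Prod.map (mpHom (W.S i)) (mpHom (W.S i)) := by
    funext p
    refine Prod.ext ?_ ?_
    · funext a
      show ∑ b, (blockW (W.S i)) (Sum.inl a) (Sum.inl b) • p.1 b +
        ∑ b, (blockW (W.S i)) (Sum.inl a) (Sum.inr b) • p.2 b = ∑ b, W.S i a b • p.1 b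
      simp [blockW]
    · funext a
      show ∑ b, (blockW (W.S i)) (Sum.inr a) (Sum.inl b) • p.1 b +
        ∑ b, (blockW (W.S i)) (Sum.inr a) (Sum.inr b) • p.2 b = ∑ b, W.S i a b • p.2 b
      simp [blockW]
  rw [e]
  exact h2

end Pool.Agent.W5h69.FM
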