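import Pool.Agent.W5h69.FM.Defs

/-! (OM), (OI): the power of `ω_B` is an alternating form, invariant under the reflections. -/

set_option autoImplicit false

noncomputable section

namespace Pool.Agent.W5h69.FM

section
variable {r : ℕ} (B : Matrix (Fin r) (Fin r) ℝ)

theorem om_bil_add_left (x x' y : Vr r) : bil B (x + x') y = bil B x y + bil B x' y := by
  unfold bil
  rw [← Finset.sum_add_distrib]
  refine Finset.sum_congr rfl fun i _ => ?_
  rw [← Finset.sum_add_distrib]
  refine Finset.sum_congr rfl fun j _ => ?_
  rw [Pi.add_apply]; ring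

theorem om_bil_smul_left (c : ℝ) (x y : Vr r) : bil B (c • x) y = c * bil B x y := by
  unfold bil
  rw [Finset.mul_sum]
  refine Finset.sum_congr rfl fun i _ => ?_
  rw [Finset.mul_sum]
  refine Finset.sum_congr rfl fun j _ => ?_
  rw [Pi.smul_apply, smul_eq_mul]; ring

theorem om_bil_add_right (x y y' : Vr r) : bil B x (y + y') = bil B x y + bil B x y' := by
  unfold bil
  rw [← Finset.sum_add_distrib]
  refine Finset.sum_congr rfl fun i _ => ?_
  rw [← Finset.sum_add_distrib]
  refine Finset.sum_congr rfl fun j _ => ?_
  rw [Pi.add_apply]; ring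

theorem om_bil_smul_right (c : ℝ) (x y : Vr r) : bil B x (c • y) = c * bil B x y := by
  unfold bil
  rw [Finset.mul_sum]
  refine Finset.sum_congr rfl fun i _ => ?_
  rw [Finset.mul_sum]
  refine Finset.sum_congr rfl fun j _ => ?_
  rw [Pi.smul_apply, smul_eq_mul]; ring

theorem om_bil_comm (hB : ∀ i j, B i j = B j i) (x y : Vr r) : bil B x y = bil B y x := by
  unfold bil
  rw [Finset.sum_comm]
  refine Finset.sum_congr rfl fun i _ => Finset.sum_congr rfl fun j _ => ?_
  rw [hB j i]; ring

theorem om_add_left (u u' v : Vr r × Vr r) : om B (u + u') v = om B u v + om B u' v := by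
  unfold om
  rw [Prod.fst_add, Prod.snd_add, om_bil_add_left, om_bil_add_left]; ring

theorem om_smul_left (c : ℝ) (u v : Vr r × Vr r) : om B (c • u) v = c * om B u v := by
  unfold om
  rw [Prod.smul_fst, Prod.smul_snd, om_bil_smul_left, om_bil_smul_left]; ring

theorem om_add_right (u v v' : Vr r × Vr r) : om B u (v + v') = om B u v + om B u v' := by
  unfold om
  rw [Prod.fst_add, Prod.snd_add, om_bil_add_right, om_bil_add_right]; ring

theorem om_smul_right (c : ℝ) (u v : Vr r × Vr r) : om B u (c • v) = c * om B u v := by
  unfold om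
  rw [Prod.smul_fst, Prod.smul_snd, om_bil_smul_right, om_bil_smul_right]; ring

theorem om_prod_update {m : ℕ} [DecidableEq (Fin m × Bool)] (v : Fin m × Bool → Vr r × Vr r)
    (j : Fin m) (b : Bool) (x : Vr r × Vr r) :
    ∏ l : Fin m, om B (Function.update v (j, b) x (l, false)) (Function.update v (j, b) x (l, true))
      = (if b then om B (v (j, false)) x else om B x (v (j, true))) *
        ∏ l ∈ Finset.univ.erase j, om B (v (l, false)) (v (l, true)) := by
  rw [← Finset.mul_prod_erase Finset.univ _ (Finset.mem_univ j)]
  congr 1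
  · cases b
    · rw [Function.update_self, Function.update_of_ne (by simp)]
      simp
    · rw [Function.update_self, Function.update_of_ne (by simp)]
      simp
  · refine Finset.prod_congr rfl fun l hl => ?_
    have hne : l ≠ j := Finset.ne_of_mem_erase hl
    rw [Function.update_of_ne (fun h => hne (congrArg Prod.fst h)),
      Function.update_of_ne (fun h => hne (congrArg Prod.fst h))]

/-- the product of the values of `ω` as a multilinear map -/
def omMul (m : ℕ) : MultilinearMap ℝ (fun _ : Fin m × Bool => Vr r × Vr r) ℝ where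
  toFun v := ∏ l : Fin m, om B (v (l, false)) (v (l, true))
  map_update_add' := by
    rintro _ v ⟨j, b⟩ x y
    rw [om_prod_update, om_prod_update, om_prod_update]
    cases b
    · simp only [Bool.false_eq_true, if_false]
      rw [om_add_left, add_mul]
    · simp only [if_true]
      rw [om_add_right, add_mul]
  map_update_smul' := by
    rintro _ v ⟨j, b⟩ c x
    rw [om_prod_update, om_prod_update, smul_eq_mul]
    cases b
    · simp only [Bool.false_eq_true, if_false]
      rw [om_smul_left, mul_assoc]
    · simp only [if_true]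
      rw [om_smul_right, mul_assoc]

end

theorem om_form : S_OM := by
  intro r B m
  refine ⟨MultilinearMap.alternatization (omMul B m), fun v => ?_⟩
  rw [MultilinearMap.alternatization_apply]
  unfold omPow
  refine Finset.sum_congr rfl fun σ _ => ?_
  rw [MultilinearMap.domDomCongr_apply]
  rw [Units.smul_def, zsmul_eq_mul]
  rfl

theorem om_s_bil {r : ℕ} (D : Refl r) (i : Fin r) (x y : Vr r) :
    bil D.B (D.s i x) (D.s i y) = bil D.B x y := by
  have hN := D.nz i
  have key : ∀ a b : ℝ, bil D.B (x - a • D.ρ i) (y - b • D.ρ i) = bil D.B x y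
      - b * bil D.B (D.ρ i) x - a * bil D.B (D.ρ i) y + a * b * bil D.B (D.ρ i) (D.ρ i) := by
    intro a b
    have e1 : x - a • D.ρ i = x + (-a) • D.ρ i := by rw [neg_smul, sub_eq_add_neg]
    have e2 : y - b • D.ρ i = y + (-b) • D.ρ i := by rw [neg_smul, sub_eq_add_neg]
    rw [e1, e2, om_bil_add_left, om_bil_add_right, om_bil_add_right, om_bil_smul_left,
      om_bil_smul_left, om_bil_smul_right, om_bil_smul_right, om_bil_comm D.B D.symm x (D.ρ i)]
    ring
  unfold Refl.s
  rw [key]
  field_simp
  ring

theorem om_inv : S_OI := by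
  intro r m D i v
  unfold omPow
  refine Finset.sum_congr rfl fun σ _ => ?_
  congr 1
  refine Finset.prod_congr rfl fun j _ => ?_
  unfold om
  rw [om_s_bil, om_s_bil]

end Pool.Agent.W5h69.FM
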