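import Pool.Agent.W5h69.FM.A

/-!
# (A2) the mirror image of (A) (helper21)
-/

set_option autoImplicit false

noncomputable section

namespace Pool.Agent.W5h69.FM

open Ax in
theorem a2 : S_A2 := by
  intro r D ι _ _ β hβ v i h1 h2
  obtain ⟨t0, ht0⟩ := h1
  refine vanish D β hβ i (fun t => D.b2 (v t)) t0
    (fun t => Sum.elim (fun _ => 0)
      (fun k => -(2 * bil D.B (D.ρ i) (D.ρ k) / bil D.B (D.ρ i) (D.ρ i))) (v t)) ?_ ?_
  · simp only [ht0, Sum.elim_inr]
    field_simp [D.nz i]
  · intro t
    simp only [ht0]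
    rcases hv : v t with k | k
    · have hk : k ≠ i := fun h => h2 t (by rw [hv, h])
      simp only [Refl.b2, Sum.elim_inl, Sum.elim_inr]
      refine Prod.ext ?_ ?_
      · simp [s_varpi D hk]
      · simp [s_zero]
    · simp only [Refl.b2, Sum.elim_inr]
      refine Prod.ext ?_ ?_
      · simp [s_zero]
      · simp [Refl.s, sub_eq_add_neg, neg_smul]

end Pool.Agent.W5h69.FM
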