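import Pool.Agent.W5h69.FM.Defs

/-! Piece (ALG): the invariant constant forms. -/

open MeasureTheory Filter

noncomputable section

namespace Pool.Agent.W5h69.FM

namespace AL

variable {r : ℕ} (D : Refl r)

/-- `bil` as a linear map in the first variable -/
def lin1 (B : Matrix (Fin r) (Fin r) ℝ) (y : Vr r) : Vr r →ₗ[ℝ] ℝ where
  toFun x := bil B x y
  map_add' a b := by simp [bil, mul_add, add_mul, Finset.sum_add_distrib]
  map_smul' c a := by
    simp only [bil, Pi.smul_apply, smul_eq_mul, RingHom.id_apply, Finset.mul_sum]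
    exact Finset.sum_congr rfl fun i _ => Finset.sum_congr rfl fun j _ => by ring

/-- `bil` as a linear map in the second variable -/
def lin2 (B : Matrix (Fin r) (Fin r) ℝ) (x : Vr r) : Vr r →ₗ[ℝ] ℝ where
  toFun y := bil B x y
  map_add' a b := by simp [bil, mul_add, Finset.sum_add_distrib]
  map_smul' c a := by
    simp only [bil, Pi.smul_apply, smul_eq_mul, RingHom.id_apply, Finset.mul_sum]
    exact Finset.sum_congr rfl fun i _ => Finset.sum_congr rfl fun j _ => by ring

theorem bil_sum_left {ι : Type*} (B : Matrix (Fin r) (Fin r) ℝ) (s : Finset ι) (c : ι → ℝ)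
    (x : ι → Vr r) (y : Vr r) :
    bil B (∑ k ∈ s, c k • x k) y = ∑ k ∈ s, c k * bil B (x k) y := by
  have h := map_sum (lin1 B y) (fun k => c k • x k) s
  simp only [map_smul, smul_eq_mul] at h
  exact h

theorem bil_sum_right {ι : Type*} (B : Matrix (Fin r) (Fin r) ℝ) (s : Finset ι) (c : ι → ℝ)
    (x : Vr r) (y : ι → Vr r) :
    bil B x (∑ k ∈ s, c k • y k) = ∑ k ∈ s, c k * bil B x (y k) := by
  have h := map_sum (lin2 B x) (fun k => c k • y k) s
  simp only [map_smul, smul_eq_mul] at h
  exact h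

theorem bil_zero_left (B : Matrix (Fin r) (Fin r) ℝ) (y : Vr r) : bil B 0 y = 0 := by simp [bil]

theorem bil_zero_right (B : Matrix (Fin r) (Fin r) ℝ) (x : Vr r) : bil B x 0 = 0 := by simp [bil]

theorem indep_ρ : LinearIndependent ℝ D.ρ := by
  rw [Fintype.linearIndependent_iff]
  intro c hc j
  have h := bil_sum_left D.B Finset.univ c D.ρ (D.ϖ j)
  rw [hc, bil_zero_left] at h
  simp only [D.dual, mul_ite, mul_one, mul_zero, Finset.sum_ite_eq', Finset.mem_univ,
    if_true] at h
  exact h.symm

theorem indep_ϖ : LinearIndependent ℝ D.ϖ := by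
  rw [Fintype.linearIndependent_iff]
  intro c hc j
  have h := bil_sum_right D.B Finset.univ c (D.ρ j) D.ϖ
  rw [hc, bil_zero_right] at h
  simp only [D.dual, mul_ite, mul_one, mul_zero, Finset.sum_ite_eq, Finset.mem_univ,
    if_true] at h
  exact h.symm

/-- the basis `ρ` -/
def bρ : Module.Basis (Fin r) ℝ (Vr r) :=
  basisOfLinearIndependentOfCardEqFinrank' D.ρ (indep_ρ D) (by simp)

/-- the basis `ϖ` -/
def bϖ : Module.Basis (Fin r) ℝ (Vr r) :=
  basisOfLinearIndependentOfCardEqFinrank' D.ϖ (indep_ϖ D) (by simp)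

/-- the basis `b1` -/
def bb : Module.Basis (Fin r ⊕ Fin r) ℝ (Vr r × Vr r) := (bρ D).prod (bϖ D)

theorem bb_apply (i : Fin r ⊕ Fin r) : bb D i = D.b1 i := by
  rcases i with i | i
  · simp [bb, Refl.b1, bρ, Module.Basis.prod_apply]
  · simp [bb, Refl.b1, bϖ, Module.Basis.prod_apply]

/-- the support of a balanced injective family -/
theorem image_eq {ι : Type} [Fintype ι] [DecidableEq ι] (v : ι → Fin r ⊕ Fin r)
    (h : ∀ i, (∃ t, v t = Sum.inl i) ↔ ∃ t, v t = Sum.inr i) :
    ∃ I : Finset (Fin r), Finset.univ.image v = I.disjSum I := by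
  classical
  refine ⟨Finset.univ.filter fun i => ∃ t, v t = Sum.inl i, ?_⟩
  ext x
  rcases x with x | x
  · simp
  · simp [h]

/-- the index version of `z` -/
def zs {m : ℕ} (τ : Fin m → Fin r) : Fin m × Bool → Fin r ⊕ Fin r :=
  fun x => if x.2 then Sum.inr (τ x.1) else Sum.inl (τ x.1)

theorem z_eq {m : ℕ} (τ : Fin m → Fin r) (x : Fin m × Bool) : D.z τ x = D.b1 (zs τ x) := by
  rcases x with ⟨j, b⟩
  cases b <;> simp [Refl.z, zs, Refl.b1]

theorem zero_of (hB : S_BAL) (hCC : S_CC) {m : ℕ} (γ : Form r (Fin m × Bool)) (hγ : D.Inv γ)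
    (τ₀ : Fin m → Fin r) (hτ₀ : Function.Injective τ₀) (h0 : γ (D.z τ₀) = 0) : γ = 0 := by
  refine Module.Basis.ext_alternating (bb D) fun v hv => ?_
  simp only [bb_apply, AlternatingMap.zero_apply]
  by_contra hne
  obtain ⟨I, hI⟩ := image_eq v (hB r D _ γ hγ v hv hne)
  have hc : I.card = m := by
    have h1 := congrArg Finset.card hI
    rw [Finset.card_image_of_injective _ hv, Finset.card_disjSum] at h1
    simp at h1
    omega
  let τ : Fin m → Fin r := fun j => I.orderEmbOfFin hc j
  have hτ : Function.Injective τ := (I.orderEmbOfFin hc).injective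
  have hτI : ∀ i, i ∈ I → ∃ j, τ j = i := by
    intro i hi
    have h2 : i ∈ Set.range (I.orderEmbOfFin hc) := by
      rw [Finset.range_orderEmbOfFin]; exact hi
    exact h2
  have h3 : ∀ x, ∃ y, zs τ y = v x := by
    intro x
    have h4 : v x ∈ I.disjSum I := by
      rw [← hI]; exact Finset.mem_image_of_mem _ (Finset.mem_univ x)
    rcases hvx : v x with i | i
    · rw [hvx, Finset.inl_mem_disjSum] at h4
      obtain ⟨j, hj⟩ := hτI i h4
      exact ⟨(j, false), by simp [zs, hj]⟩
    · rw [hvx, Finset.inr_mem_disjSum] at h4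
      obtain ⟨j, hj⟩ := hτI i h4
      exact ⟨(j, true), by simp [zs, hj]⟩
  choose σ hσ using h3
  have hσi : Function.Injective σ := by
    intro x y hxy
    apply hv
    rw [← hσ x, ← hσ y, hxy]
  let σ' : Equiv.Perm (Fin m × Bool) := Equiv.ofBijective σ (Finite.injective_iff_bijective.1 hσi)
  have h5 : (fun t => D.b1 (v t)) = fun t => D.z τ (σ' t) := by
    funext t
    rw [z_eq, show zs τ (σ' t) = v t from hσ t]
  apply hne
  rw [h5]
  have h6 := γ.map_perm (D.z τ) σ'
  rw [show (fun t => D.z τ (σ' t)) = D.z τ ∘ σ' from rfl, h6, hCC r m D γ hγ τ τ₀ hτ hτ₀, h0,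
    smul_zero]

end AL

open AL in
theorem alg (hB : S_BAL) (hCC : S_CC) (hOM : S_OM) (hOI : S_OI) (hZ : S_Z) : S_ALG := by
  intro r D ι _ _ β hβ
  refine ⟨fun hodd => ?_, fun m e => ?_⟩
  · refine Module.Basis.ext_alternating (bb D) fun v hv => ?_
    simp only [bb_apply, AlternatingMap.zero_apply]
    by_contra hne
    obtain ⟨I, hI⟩ := image_eq v (hB r D _ β hβ v hv hne)
    have h1 := congrArg Finset.card hI
    rw [Finset.card_image_of_injective _ hv, Finset.card_disjSum, Finset.card_univ] at h1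
    obtain ⟨k, hk⟩ := hodd
    omega
  · let β' : Form r (Fin m × Bool) := β.domDomCongr e.symm
    have hβ'v : ∀ v : ι → Vr r × Vr r, β' (fun x => v (e x)) = β v := by
      intro v
      simp only [β', AlternatingMap.domDomCongr_apply]
      congr 1
      funext t
      simp
    have hβ' : D.Inv β' := by
      intro i v
      simp only [β', AlternatingMap.domDomCongr_apply]
      exact hβ i fun t => v (e.symm t)
    obtain ⟨Ω, hΩ⟩ := hOM r D.B m
    have hΩi : D.Inv Ω := by
      intro i v
      rw [hΩ, hΩ]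
      exact hOI r m D i v
    rcases le_or_gt m r with hm | hm
    · let τ₀ : Fin m → Fin r := Fin.castLE hm
      have hτ₀ : Function.Injective τ₀ := Fin.castLE_injective hm
      have hz := hZ r m D τ₀ hτ₀
      refine ⟨β' (D.z τ₀) / omPow D.B m (D.z τ₀), fun v => ?_⟩
      have hγ : β' - (β' (D.z τ₀) / omPow D.B m (D.z τ₀)) • Ω = 0 := by
        refine zero_of D hB hCC _ ?_ τ₀ hτ₀ ?_
        · intro i v
          simp only [AlternatingMap.sub_apply, AlternatingMap.smul_apply]
          rw [hβ' i v, hΩi i v]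
        · simp only [AlternatingMap.sub_apply, AlternatingMap.smul_apply, hΩ, smul_eq_mul]
          field_simp
          ring
      have h1 := congrArg (fun F : Form r (Fin m × Bool) => F (fun x => v (e x))) hγ
      simp only [AlternatingMap.sub_apply, AlternatingMap.smul_apply, hΩ, smul_eq_mul,
        AlternatingMap.zero_apply, hβ'v] at h1
      linarith
    · refine ⟨0, fun v => ?_⟩
      have h0 : β' = 0 := by
        refine Module.Basis.ext_alternating (bb D) fun v hv => ?_
        exfalso
        have h1 := Fintype.card_le_of_injective v hv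
        simp at h1
        omega
      rw [← hβ'v, h0]
      simp

end Pool.Agent.W5h69.FM
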