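import Pool.Agent.W5h69.FM.Defs

/-!
# MP_d52947_gt : balance of the two kinds of slots
-/

noncomputable section

namespace Pool.Agent.W5h69.FM

namespace BalL

open Finset Matrix

variable {r : ℕ}

theorem bil_eq (B : Matrix (Fin r) (Fin r) ℝ) (x y : Vr r) : bil B x y = x ⬝ᵥ (B *ᵥ y) := by
  unfold bil dotProduct
  refine Finset.sum_congr rfl fun i _ => ?_
  unfold mulVec dotProduct
  rw [Finset.mul_sum]
  refine Finset.sum_congr rfl fun j _ => ?_
  ring

/-- expansion in the dual basis -/
theorem exp_w (D : Refl r) (x : Vr r) : x = ∑ j, bil D.B (D.ρ j) x • D.ϖ j := by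
  set R : Matrix (Fin r) (Fin r) ℝ := Matrix.of D.ρ with hR
  set F : Matrix (Fin r) (Fin r) ℝ := Matrix.of D.ϖ with hF
  have h1 : (R * D.B) * Fᵀ = 1 := by
    ext i j
    have := D.dual i j
    rw [bil_eq] at this
    rw [Matrix.mul_assoc, Matrix.mul_apply, Matrix.one_apply, ← this]
    rfl
  have h2 : Fᵀ * (R * D.B) = 1 := mul_eq_one_comm.1 h1
  have h3 : Fᵀ *ᵥ ((R * D.B) *ᵥ x) = x := by
    rw [Matrix.mulVec_mulVec, h2, Matrix.one_mulVec]
  funext k
  conv_lhs => rw [← h3]
  rw [Finset.sum_apply]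
  unfold mulVec dotProduct
  refine Finset.sum_congr rfl fun j _ => ?_
  rw [Pi.smul_apply, smul_eq_mul, mul_comm, bil_eq]
  congr 1
  change ((R * D.B) *ᵥ x) j = _
  rw [← Matrix.mulVec_mulVec]
  rfl

/-- expansion in the basis -/
theorem exp_r (D : Refl r) (x : Vr r) : x = ∑ j, bil D.B x (D.ϖ j) • D.ρ j := by
  set R : Matrix (Fin r) (Fin r) ℝ := Matrix.of D.ρ with hR
  set F : Matrix (Fin r) (Fin r) ℝ := Matrix.of D.ϖ with hF
  have h1 : R * (D.B * Fᵀ) = 1 := by
    ext i j
    have := D.dual i j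
    rw [bil_eq] at this
    rw [Matrix.mul_apply, Matrix.one_apply, ← this]
    rfl
  have h2 : (D.B * Fᵀ) * R = 1 := mul_eq_one_comm.1 h1
  have h3 : (x ᵥ* (D.B * Fᵀ)) ᵥ* R = x := by
    rw [Matrix.vecMul_vecMul, h2, Matrix.vecMul_one]
  funext k
  conv_lhs => rw [← h3]
  rw [Finset.sum_apply]
  unfold vecMul dotProduct
  refine Finset.sum_congr rfl fun j _ => ?_
  rw [Pi.smul_apply, smul_eq_mul, bil_eq]
  rfl

variable {ι : Type} [Fintype ι] [DecidableEq ι]

/-- a nonzero value of a form on sums of vectors comes from a nonzero value on the vectors -/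
theorem exists_ne (β : Form r ι) (c : ι → Fin r → ℝ) (w : ι → Fin r → Vr r × Vr r)
    (h : β (fun t => ∑ j, c t j • w t j) ≠ 0) :
    ∃ f : ι → Fin r, β (fun t => w t (f t)) ≠ 0 := by
  by_contra hcon
  push Not at hcon
  apply h
  have h1 := β.toMultilinearMap.map_sum (fun t j => c t j • w t j)
  change β (fun t => ∑ j, c t j • w t j) = _ at h1
  rw [h1]
  refine Finset.sum_eq_zero fun f _ => ?_
  have h2 := β.toMultilinearMap.map_smul_univ (fun t => c t (f t)) (fun t => w t (f t))
  rw [h2]
  change _ • β (fun t => w t (f t)) = 0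
  rw [hcon f, smul_zero]

theorem cardL (v : ι → Fin r ⊕ Fin r) (hv : Function.Injective v) :
    (univ.filter (fun i => ∃ t, v t = Sum.inl i)).card =
      (univ.filter (fun t => (v t).isLeft = true)).card := by
  classical
  rw [← Finset.card_image_of_injective (univ.filter (fun i => ∃ t, v t = Sum.inl i))
      (Sum.inl_injective : Function.Injective (Sum.inl : Fin r → Fin r ⊕ Fin r)),
    ← Finset.card_image_of_injective (univ.filter (fun t => (v t).isLeft = true)) hv]
  congr 1
  ext x
  simp only [mem_image, mem_filter, mem_univ, true_and]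
  constructor
  · rintro ⟨i, ⟨t, ht⟩, rfl⟩
    exact ⟨t, by rw [ht]; rfl, ht⟩
  · rintro ⟨t, ht, rfl⟩
    rcases h : v t with i | i
    · exact ⟨i, ⟨t, h⟩, rfl⟩
    · rw [h] at ht
      exact absurd ht (by simp)

theorem cardR (v : ι → Fin r ⊕ Fin r) (hv : Function.Injective v) :
    (univ.filter (fun i => ∃ t, v t = Sum.inr i)).card =
      (univ.filter (fun t => (v t).isLeft = false)).card := by
  classical
  rw [← Finset.card_image_of_injective (univ.filter (fun i => ∃ t, v t = Sum.inr i))
      (Sum.inr_injective : Function.Injective (Sum.inr : Fin r → Fin r ⊕ Fin r)),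
    ← Finset.card_image_of_injective (univ.filter (fun t => (v t).isLeft = false)) hv]
  congr 1
  ext x
  simp only [mem_image, mem_filter, mem_univ, true_and]
  constructor
  · rintro ⟨i, ⟨t, ht⟩, rfl⟩
    exact ⟨t, by rw [ht]; rfl, ht⟩
  · rintro ⟨t, ht, rfl⟩
    rcases h : v t with i | i
    · rw [h] at ht
      exact absurd ht (by simp)
    · exact ⟨i, ⟨t, h⟩, rfl⟩

/-- the new labels of the slots -/
def nv (v : ι → Fin r ⊕ Fin r) (f : ι → Fin r) (t : ι) : Fin r ⊕ Fin r :=
  Sum.elim (fun _ => Sum.inl (f t)) (fun _ => Sum.inr (f t)) (v t)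

theorem nv_left (v : ι → Fin r ⊕ Fin r) (f : ι → Fin r) (t : ι) :
    (nv v f t).isLeft = (v t).isLeft := by
  unfold nv
  rcases v t with i | i <;> rfl

/-- passing from the first basis to the second one -/
theorem change_basis (D : Refl r) (β : Form r ι) (v : ι → Fin r ⊕ Fin r)
    (h : β (fun t => D.b1 (v t)) ≠ 0) : ∃ f : ι → Fin r, β (fun t => D.b2 (nv v f t)) ≠ 0 := by
  refine exists_ne β (fun t j => Sum.elim (fun i => bil D.B (D.ρ j) (D.ρ i))
    (fun i => bil D.B (D.ϖ i) (D.ϖ j)) (v t)) (fun t j => D.b2 (nv v (fun _ => j) t)) ?_ |>.imp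
    fun f hf => ?_
  · have : (fun t => ∑ j, (Sum.elim (fun i => bil D.B (D.ρ j) (D.ρ i))
        (fun i => bil D.B (D.ϖ i) (D.ϖ j)) (v t)) • D.b2 (nv v (fun _ => j) t)) =
        fun t => D.b1 (v t) := by
      funext t
      unfold nv
      rcases v t with i | i
      · simp only [Sum.elim_inl, Refl.b1, Refl.b2]
        apply Prod.ext
        · rw [Prod.fst_sum]
          exact (exp_w D (D.ρ i)).symm
        · rw [Prod.snd_sum]
          simp
      · simp only [Sum.elim_inr, Refl.b1, Refl.b2]
        apply Prod.ext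
        · rw [Prod.fst_sum]
          simp
        · rw [Prod.snd_sum]
          exact (exp_r D (D.ϖ i)).symm
    rw [this]
    exact h
  · exact hf

end BalL

open BalL Finset in
/-- (BAL) a nonzero value has as many `ρ` as `ϖ` -/
theorem bal (hA : S_A) (hA2 : S_A2) : S_BAL := by
  classical
  intro r D ι _ _ β hβ v hv hne
  have hsub : ∀ i, (∃ t, v t = Sum.inl i) → ∃ t, v t = Sum.inr i := by
    intro i hi
    by_contra hcon
    push Not at hcon
    exact hne (hA r D ι β hβ v i hi hcon)
  intro i
  refine ⟨hsub i, fun hi => ?_⟩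
  by_contra hni
  obtain ⟨f, hf⟩ := change_basis D β v hne
  have hinj : Function.Injective (nv v f) := by
    intro t t' htt
    by_contra hne'
    apply hf
    exact β.map_eq_zero_of_eq (fun t => D.b2 (nv v f t)) (by simp only [htt]) hne'
  have hsub2 : ∀ i, (∃ t, nv v f t = Sum.inr i) → ∃ t, nv v f t = Sum.inl i := by
    intro i hi
    by_contra hcon
    push Not at hcon
    exact hf (hA2 r D ι β hβ (nv v f) i hi hcon)
  have h1 : (univ.filter (fun i => ∃ t, v t = Sum.inl i)).card <
      (univ.filter (fun i => ∃ t, v t = Sum.inr i)).card := by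
    apply Finset.card_lt_card
    rw [Finset.ssubset_iff_of_subset]
    · exact ⟨i, by simpa using hi, by simpa using hni⟩
    · intro j hj
      simp only [mem_filter, mem_univ, true_and] at hj ⊢
      exact hsub j hj
  have h2 : (univ.filter (fun i => ∃ t, nv v f t = Sum.inr i)).card ≤
      (univ.filter (fun i => ∃ t, nv v f t = Sum.inl i)).card := by
    apply Finset.card_le_card
    intro j hj
    simp only [mem_filter, mem_univ, true_and] at hj ⊢
    exact hsub2 j hj
  rw [cardL v hv, cardR v hv] at h1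
  rw [cardL _ hinj, cardR _ hinj] at h2
  simp only [nv_left] at h2
  omega

end Pool.Agent.W5h69.FM
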