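import Pool.Agent.W5h69.FM.Defs2

/-! Piece (CONST): invariance under the two unipotents forces constancy. -/

open MeasureTheory Filter

noncomputable section

namespace Pool.Agent.W5h69.FM

namespace CO

variable {r : ℕ} {ι : Type} [Fintype ι] [DecidableEq ι]

theorem fn_inv (hP : S_POLY) (hR : S_REC) (α : To r × To r → Form r ι)
    (hm : ∀ v, Measurable fun p => α p v) (U : To r × To r → To r × To r)
    (hU : MeasurePreserving U volume volume) (N : (Vr r × Vr r) →ₗ[ℝ] (Vr r × Vr r))
    (hN : ∀ x, N (N x) = 0)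
    (hinv : ∀ᵐ p : To r × To r, ∀ v : ι → Vr r × Vr r, α (U p) (fun t => v t + N (v t)) = α p v)
    (v : ι → Vr r × Vr r) : ∀ᵐ p : To r × To r, α (U p) v = α p v := by
  refine hR (To r × To r) volume U hU (fun p => α p v) (hm v) ?_
  have h1 : ∀ n : ℕ, ∀ᵐ p : To r × To r, ∀ v : ι → Vr r × Vr r,
      α (U (U^[n] p)) (fun t => v t + N (v t)) = α (U^[n] p) v := fun n =>
    (hU.iterate n).quasiMeasurePreserving.ae hinv
  filter_upwards [ae_all_iff.2 h1] with p hp
  have h2 : ∀ n : ℕ, ∀ v : ι → Vr r × Vr r,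
      α (U^[n] p) (fun t => v t + (n : ℝ) • N (v t)) = α p v := by
    intro n
    induction n with
    | zero => intro v; simp
    | succ n ih =>
      intro v
      rw [Function.iterate_succ_apply', ← ih v, ← hp n]
      congr 1
      funext t
      rw [map_add, map_smul, hN, smul_zero, add_zero, Nat.cast_succ, add_smul, one_smul]
      abel
  obtain ⟨P, hP'⟩ := hP r ι (α p) v (fun t => - N (v t))
  refine ⟨P, fun n => ?_⟩
  rw [← hP', ← h2 n]
  congr 1
  funext t
  rw [map_add, map_smul, map_neg, hN]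
  simp

end CO

open CO in
theorem const (hP : S_POLY) (hR : S_REC) (hE : S_ERG) : S_CONST := by
  intro r ι _ _ α hm h1 h2
  have e1 : ∀ v, ∀ᵐ p : To r × To r, α (p.1 + p.2, p.2) v = α p v := by
    refine fn_inv hP hR α hm (fun p => (p.1 + p.2, p.2)) (measurePreserving_add_prod volume volume)
      ((LinearMap.inl ℝ (Vr r) (Vr r)).comp (LinearMap.snd ℝ (Vr r) (Vr r)))
      (fun x => by simp) ?_
    filter_upwards [h1] with p hp v
    rw [← hp v]
    congr 1
    funext t
    ext <;> simp
  have e2 : ∀ v, ∀ᵐ p : To r × To r, α (p.1, p.2 + p.1) v = α p v := by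
    have hmp : MeasurePreserving (fun p : To r × To r => (p.1, p.2 + p.1)) volume volume := by
      have h := measurePreserving_prod_add (G := To r) volume volume
      have h' : (fun p : To r × To r => (p.1, p.2 + p.1)) = fun z => (z.1, z.1 + z.2) := by
        funext p
        rw [add_comm]
      rw [h']
      exact h
    refine fn_inv hP hR α hm (fun p => (p.1, p.2 + p.1)) hmp
      ((LinearMap.inr ℝ (Vr r) (Vr r)).comp (LinearMap.fst ℝ (Vr r) (Vr r)))
      (fun x => by simp) ?_
    filter_upwards [h2] with p hp v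
    rw [← hp v]
    congr 1
    funext t
    ext <;> simp
  have e3 : ∀ v, ∃ c : ℝ, ∀ᵐ p : To r × To r, α p v = c := fun v =>
    hE r (fun p => α p v) (hm v) (e1 v) (e2 v)
  choose c hc using e3
  let b : Module.Basis (Fin r ⊕ Fin r) ℝ (Vr r × Vr r) :=
    (Pi.basisFun ℝ (Fin r)).prod (Pi.basisFun ℝ (Fin r))
  have e4 : ∀ᵐ p : To r × To r, ∀ j : ι → Fin r ⊕ Fin r,
      α p (fun t => b (j t)) = c (fun t => b (j t)) := ae_all_iff.2 fun j => hc _
  have hop : (volume : Measure (To r × To r)).IsOpenPosMeasure := by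
    rw [Measure.volume_eq_prod]
    infer_instance
  have hne : (volume : Measure (To r × To r)) ≠ 0 := by
    intro h0
    have h1 := isOpen_univ.measure_ne_zero (volume : Measure (To r × To r)) Set.univ_nonempty
    rw [h0] at h1
    simp at h1
  have : NeBot (ae (volume : Measure (To r × To r))) := ae_neBot.2 hne
  obtain ⟨p₀, hp₀⟩ := e4.exists
  refine ⟨α p₀, ?_⟩
  filter_upwards [e4] with p hp
  refine Module.Basis.ext_alternating b fun j _ => ?_
  rw [hp j, hp₀ j]

end Pool.Agent.W5h69.FM
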