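import Pool.Agent.W5h69.FM.Defs

/-! (ERG): ergodicity of the shears of `T × T`. -/

set_option autoImplicit false

open MeasureTheory

noncomputable section

namespace Pool.Agent.W5h69.FM

namespace ErgAux

/-- Fourier coefficients -/
def cf {d : Type} [Fintype d] (μ : Measure (d → UnitAddCircle)) (F : (d → UnitAddCircle) → ℂ)
    (k : d → ℤ) : ℂ := ∫ t, UnitAddTorus.mFourier (-k) t * F t ∂μ

section core

local instance : MeasureSpace UnitAddCircle := ⟨AddCircle.haarAddCircle⟩

local instance : Measure.IsAddHaarMeasure (volume : Measure UnitAddCircle) :=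
  inferInstanceAs (Measure.IsAddHaarMeasure AddCircle.haarAddCircle)

local instance : IsProbabilityMeasure (volume : Measure UnitAddCircle) :=
  inferInstanceAs (IsProbabilityMeasure AddCircle.haarAddCircle)

variable {d : Type} [Fintype d]

theorem cf_toLp {F : UnitAddTorus d → ℂ}
    (hF : MemLp F 2 (volume : Measure (UnitAddTorus d))) (k : d → ℤ) :
    UnitAddTorus.mFourierCoeff (hF.toLp F) k = cf (volume : Measure (UnitAddTorus d)) F k := by
  unfold UnitAddTorus.mFourierCoeff cf
  refine integral_congr_ae ?_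
  filter_upwards [hF.coeFn_toLp] with t ht
  rw [ht, smul_eq_mul]

theorem summable_cf {μ : Measure (d → UnitAddCircle)}
    (hμ : μ = Measure.pi fun _ => AddCircle.haarAddCircle) {F : (d → UnitAddCircle) → ℂ}
    (hF : MemLp F 2 μ) : Summable fun k => ‖cf μ F k‖ ^ 2 := by
  subst hμ
  have hF' : MemLp F 2 (volume : Measure (UnitAddTorus d)) := hF
  have h := UnitAddTorus.hasSum_sq_mFourierCoeff (hF'.toLp F)
  refine h.summable.congr fun k => ?_
  rw [cf_toLp hF' k]
  rfl

theorem eq_const {μ : Measure (d → UnitAddCircle)}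
    (hμ : μ = Measure.pi fun _ => AddCircle.haarAddCircle) {F : (d → UnitAddCircle) → ℂ}
    (hF : MemLp F 2 μ) (h0 : ∀ k, k ≠ 0 → cf μ F k = 0) : ∃ c : ℂ, ∀ᵐ t ∂μ, F t = c := by
  subst hμ
  have hF' : MemLp F 2 (volume : Measure (UnitAddTorus d)) := hF
  have h := UnitAddTorus.hasSum_mFourier_series_L2 (hF'.toLp F)
  have h1 : HasSum (fun i => UnitAddTorus.mFourierCoeff (hF'.toLp F) i •
      UnitAddTorus.mFourierLp 2 i)
      (UnitAddTorus.mFourierCoeff (hF'.toLp F) 0 • UnitAddTorus.mFourierLp (d := d) 2 0) := by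
    apply hasSum_single
    intro k hk
    rw [cf_toLp hF' k]
    have h2 : cf (volume : Measure (UnitAddTorus d)) F k = 0 := h0 k hk
    rw [h2, zero_smul]
  have h2 := h.unique h1
  refine ⟨UnitAddTorus.mFourierCoeff (hF'.toLp F) 0, ?_⟩
  have h3 := hF'.coeFn_toLp
  have h4 := UnitAddTorus.coeFn_mFourierLp (d := d) 2 0
  have h5 := Lp.coeFn_smul (UnitAddTorus.mFourierCoeff (hF'.toLp F) 0)
    (UnitAddTorus.mFourierLp (d := d) 2 0)
  rw [← h2] at h5
  have h6 : ∀ᵐ t ∂(volume : Measure (UnitAddTorus d)),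
      F t = UnitAddTorus.mFourierCoeff (hF'.toLp F) 0 := by
    filter_upwards [h3, h4, h5] with t e3 e4 e5
    rw [← e3, e5, Pi.smul_apply, e4, UnitAddTorus.mFourier_zero]
    simp
  exact h6

end core

/-- coefficients which are constant on an infinite orbit vanish -/
theorem cf_eq_zero {d : Type} [Fintype d] {μ : Measure (d → UnitAddCircle)}
    (hμ : μ = Measure.pi fun _ => AddCircle.haarAddCircle) {F : (d → UnitAddCircle) → ℂ}
    (hF : MemLp F 2 μ) (k : d → ℤ) (φ : ℕ → d → ℤ) (hφ : Function.Injective φ)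
    (h : ∀ j, cf μ F (φ j) = cf μ F k) : cf μ F k = 0 := by
  have h1 := (summable_cf hμ hF).comp_injective hφ
  have h2 := h1.tendsto_atTop_zero
  have h3 : ((fun k => ‖cf μ F k‖ ^ 2) ∘ φ) = fun _ => ‖cf μ F k‖ ^ 2 := by
    funext j
    simp only [Function.comp_apply, h j]
  rw [h3] at h2
  have h4 := tendsto_nhds_unique h2 tendsto_const_nhds
  have h5 : ‖cf μ F k‖ = 0 := by
    have := h4.symm
    exact pow_eq_zero_iff (two_ne_zero) |>.1 this
  exact norm_eq_zero.1 h5

/-- change of variables for the coefficients -/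
theorem cf_comp {d : Type} [Fintype d] {μ : Measure (d → UnitAddCircle)}
    {F : (d → UnitAddCircle) → ℂ} (hF : AEStronglyMeasurable F μ)
    {S : (d → UnitAddCircle) → (d → UnitAddCircle)} (hS : MeasurePreserving S μ μ)
    (hFS : ∀ᵐ t ∂μ, F (S t) = F t) {k k' : d → ℤ}
    (hk : ∀ t, UnitAddTorus.mFourier (-k) t = UnitAddTorus.mFourier (-k') (S t)) :
    cf μ F k = cf μ F k' := by
  unfold cf
  have h1 : ∫ t, UnitAddTorus.mFourier (-k) t * F t ∂μ =
      ∫ t, (fun s => UnitAddTorus.mFourier (-k') s * F s) (S t) ∂μ := by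
    refine integral_congr_ae ?_
    filter_upwards [hFS] with t ht
    simp only [ht, hk t]
  rw [h1]
  have h2 : AEStronglyMeasurable (fun s => UnitAddTorus.mFourier (-k') s * F s) (μ.map S) := by
    rw [hS.map_eq]
    exact (UnitAddTorus.mFourier (-k')).continuous.aestronglyMeasurable.mul hF
  rw [← integral_map hS.measurable.aemeasurable h2, hS.map_eq]

theorem fourier_arg_add (m : ℤ) (x y : UnitAddCircle) :
    fourier m (x + y) = fourier m x * fourier m y := by
  rw [fourier_apply, fourier_apply, fourier_apply, smul_add, AddCircle.toCircle_add,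
    Circle.coe_mul]

theorem vol_eq (d : Type) [Fintype d] : (volume : Measure (d → UnitAddCircle)) =
    Measure.pi fun _ => AddCircle.haarAddCircle := by
  have h : (volume : Measure UnitAddCircle) = AddCircle.haarAddCircle := by
    have h1 := AddCircle.volume_eq_smul_haarAddCircle (T := 1)
    rw [ENNReal.ofReal_one, one_smul] at h1
    exact h1
  rw [volume_pi, h]

variable {r : ℕ}

theorem four_one (k : Fin r ⊕ Fin r → ℤ) (t : Fin r ⊕ Fin r → UnitAddCircle) :
    UnitAddTorus.mFourier (-k) t = UnitAddTorus.mFourier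
      (-(Sum.elim (fun i => k (Sum.inl i)) (fun i => k (Sum.inr i) - k (Sum.inl i))))
      (Sum.elim (fun i => t (Sum.inl i) + t (Sum.inr i)) (fun i => t (Sum.inr i))) := by
  unfold UnitAddTorus.mFourier
  simp only [ContinuousMap.coe_mk, Fintype.prod_sum_type, Pi.neg_apply, Sum.elim_inl,
    Sum.elim_inr]
  rw [← Finset.prod_mul_distrib, ← Finset.prod_mul_distrib]
  refine Finset.prod_congr rfl fun i _ => ?_
  rw [fourier_arg_add, mul_assoc, ← fourier_add]
  congr 3
  ring

theorem four_two (k : Fin r ⊕ Fin r → ℤ) (t : Fin r ⊕ Fin r → UnitAddCircle) :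
    UnitAddTorus.mFourier (-k) t = UnitAddTorus.mFourier
      (-(Sum.elim (fun i => k (Sum.inl i) - k (Sum.inr i)) (fun i => k (Sum.inr i))))
      (Sum.elim (fun i => t (Sum.inl i)) (fun i => t (Sum.inr i) + t (Sum.inl i))) := by
  unfold UnitAddTorus.mFourier
  simp only [ContinuousMap.coe_mk, Fintype.prod_sum_type, Pi.neg_apply, Sum.elim_inl,
    Sum.elim_inr]
  rw [← Finset.prod_mul_distrib, ← Finset.prod_mul_distrib]
  refine Finset.prod_congr rfl fun i _ => ?_
  rw [fourier_arg_add, mul_comm (fourier (-k (Sum.inr i)) (t (Sum.inr i))), ← mul_assoc,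
    ← fourier_add]
  congr 3
  ring

end ErgAux

open ErgAux in
theorem erg : S_ERG := by
  intro r f hf h1 h2
  let e : (Fin r ⊕ Fin r → UnitAddCircle) ≃ᵐ To r × To r :=
    MeasurableEquiv.sumPiEquivProdPi (fun _ : Fin r ⊕ Fin r => UnitAddCircle)
  have he : MeasurePreserving e volume volume :=
    volume_measurePreserving_sumPiEquivProdPi (fun _ : Fin r ⊕ Fin r => UnitAddCircle)
  have hμ := vol_eq (Fin r ⊕ Fin r)
  let F : (Fin r ⊕ Fin r → UnitAddCircle) → ℂ := fun t => ((Real.arctan (f (e t)) : ℝ) : ℂ)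
  have hFm : Measurable F :=
    Complex.measurable_ofReal.comp (Real.measurable_arctan.comp (hf.comp e.measurable))
  have hFb : MemLp F 2 (volume : Measure (Fin r ⊕ Fin r → UnitAddCircle)) := by
    refine MemLp.of_bound hFm.aestronglyMeasurable (Real.pi / 2)
      (Filter.Eventually.of_forall fun t => ?_)
    change ‖((Real.arctan (f (e t)) : ℝ) : ℂ)‖ ≤ _
    rw [Complex.norm_real, Real.norm_eq_abs, abs_le]
    exact ⟨(Real.neg_pi_div_two_lt_arctan _).le, (Real.arctan_lt_pi_div_two _).le⟩
  -- the shears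
  let S1 : (Fin r ⊕ Fin r → UnitAddCircle) → (Fin r ⊕ Fin r → UnitAddCircle) := fun t =>
    Sum.elim (fun i => t (Sum.inl i) + t (Sum.inr i)) (fun i => t (Sum.inr i))
  let S2 : (Fin r ⊕ Fin r → UnitAddCircle) → (Fin r ⊕ Fin r → UnitAddCircle) := fun t =>
    Sum.elim (fun i => t (Sum.inl i)) (fun i => t (Sum.inr i) + t (Sum.inl i))
  have hS1 : MeasurePreserving S1 volume volume :=
    (he.symm e).comp ((measurePreserving_add_prod volume volume).comp he)
  have hS2 : MeasurePreserving S2 volume volume :=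
    (he.symm e).comp ((measurePreserving_prod_add_right volume volume).comp he)
  have hF1 : ∀ᵐ t, F (S1 t) = F t := by
    filter_upwards [he.quasiMeasurePreserving.ae h1] with t ht
    change ((Real.arctan (f (e (S1 t))) : ℝ) : ℂ) = ((Real.arctan (f (e t)) : ℝ) : ℂ)
    have h3 : e (S1 t) = ((e t).1 + (e t).2, (e t).2) := rfl
    rw [h3, ht]
  have hF2 : ∀ᵐ t, F (S2 t) = F t := by
    filter_upwards [he.quasiMeasurePreserving.ae h2] with t ht
    change ((Real.arctan (f (e (S2 t))) : ℝ) : ℂ) = ((Real.arctan (f (e t)) : ℝ) : ℂ)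
    have h3 : e (S2 t) = ((e t).1, (e t).2 + (e t).1) := rfl
    rw [h3, ht]
  have c1 : ∀ k, cf volume F k = cf volume F
      (Sum.elim (fun i => k (Sum.inl i)) (fun i => k (Sum.inr i) - k (Sum.inl i))) := fun k =>
    cf_comp hFm.aestronglyMeasurable hS1 hF1 (four_one k)
  have c2 : ∀ k, cf volume F k = cf volume F
      (Sum.elim (fun i => k (Sum.inl i) - k (Sum.inr i)) (fun i => k (Sum.inr i))) := fun k =>
    cf_comp hFm.aestronglyMeasurable hS2 hF2 (four_two k)
  have c1' : ∀ k : Fin r ⊕ Fin r → ℤ, ∀ j : ℕ, cf volume F (Sum.elim (fun i => k (Sum.inl i))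
      (fun i => k (Sum.inr i) - j * k (Sum.inl i))) = cf volume F k := by
    intro k j
    induction j with
    | zero =>
      congr 1
      funext i
      rcases i with i | i <;> simp
    | succ j ih =>
      rw [← ih, c1 (Sum.elim (fun i => k (Sum.inl i))
        (fun i => k (Sum.inr i) - j * k (Sum.inl i)))]
      congr 1
      funext i
      rcases i with i | i
      · simp
      · simp only [Sum.elim_inr, Sum.elim_inl]
        push_cast
        ring
  have c2' : ∀ k : Fin r ⊕ Fin r → ℤ, ∀ j : ℕ, cf volume F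
      (Sum.elim (fun i => k (Sum.inl i) - j * k (Sum.inr i)) (fun i => k (Sum.inr i))) =
        cf volume F k := by
    intro k j
    induction j with
    | zero =>
      congr 1
      funext i
      rcases i with i | i <;> simp
    | succ j ih =>
      rw [← ih, c2 (Sum.elim (fun i => k (Sum.inl i) - j * k (Sum.inr i))
        (fun i => k (Sum.inr i)))]
      congr 1
      funext i
      rcases i with i | i
      · simp only [Sum.elim_inr, Sum.elim_inl]
        push_cast
        ring
      · simp
  have hz : ∀ k, k ≠ 0 → cf volume F k = 0 := by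
    intro k hk
    obtain ⟨i, hi⟩ : ∃ i, k i ≠ 0 := by
      by_contra hcon
      push Not at hcon
      exact hk (funext hcon)
    rcases i with i | i
    · refine cf_eq_zero hμ hFb k _ (fun a b hab => ?_) (c1' k)
      have h3 := congrFun hab (Sum.inr i)
      simp only [Sum.elim_inr] at h3
      have h4 : (a : ℤ) * k (Sum.inl i) = b * k (Sum.inl i) := by linarith
      have h5 := mul_right_cancel₀ hi h4
      exact_mod_cast h5
    · refine cf_eq_zero hμ hFb k _ (fun a b hab => ?_) (c2' k)
      have h3 := congrFun hab (Sum.inl i)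
      simp only [Sum.elim_inl] at h3
      have h4 : (a : ℤ) * k (Sum.inr i) = b * k (Sum.inr i) := by linarith
      have h5 := mul_right_cancel₀ hi h4
      exact_mod_cast h5
  obtain ⟨c, hc⟩ := eq_const hμ hFb hz
  refine ⟨Real.tan c.re, ?_⟩
  have h3 := (he.symm e).quasiMeasurePreserving.ae hc
  filter_upwards [h3] with p hp
  have h4 : ((Real.arctan (f (e (e.symm p))) : ℝ) : ℂ) = c := hp
  rw [e.apply_symm_apply] at h4
  rw [← h4, Complex.ofReal_re, Real.tan_arctan]

end Pool.Agent.W5h69.FM
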