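import Pool.Agent.W5h69.FM.Defs

/-!
# (POLY) forms along lines are polynomials
-/

noncomputable section

namespace Pool.Agent.W5h69.FM

theorem poly : S_POLY := by
  classical
  intro r ι _ _ β v w
  refine ⟨∑ s : Finset ι, Polynomial.C (β (s.piecewise v w)) * Polynomial.X ^ (sᶜ).card, ?_⟩
  intro t
  have h1 := β.toMultilinearMap.map_add_univ v (fun i => t • w i)
  have h2 : β (fun i => v i + t • w i) = ∑ s : Finset ι, β (s.piecewise v (fun i => t • w i)) := by
    exact h1
  rw [h2, Polynomial.eval_finsetSum]
  refine Finset.sum_congr rfl fun s _ => ?_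
  rw [Polynomial.eval_mul, Polynomial.eval_C, Polynomial.eval_pow, Polynomial.eval_X]
  have h3 : s.piecewise v (fun i => t • w i) =
      fun i => (if i ∈ s then (1 : ℝ) else t) • (s.piecewise v w) i := by
    funext i
    by_cases h : i ∈ s <;> simp [h]
  rw [h3]
  have h4 := β.toMultilinearMap.map_smul_univ (fun i => if i ∈ s then (1 : ℝ) else t)
    (s.piecewise v w)
  have h5 : β (fun i => (if i ∈ s then (1 : ℝ) else t) • (s.piecewise v w) i) =
      (∏ i, if i ∈ s then (1 : ℝ) else t) • β (s.piecewise v w) := h4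
  rw [h5, smul_eq_mul, mul_comm]
  congr 1
  rw [Finset.prod_ite]
  simp only [Finset.prod_const_one, one_mul, Finset.prod_const]
  congr 2
  ext i
  simp

end Pool.Agent.W5h69.FM
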