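import Pool.Agent.W5h69.FM.Defs

/-! Piece (REC): recurrence and polynomial growth. -/

open MeasureTheory Filter

noncomputable section

namespace Pool.Agent.W5h69.FM

theorem rec_lemma : S_REC := by
  intro X _ μ _ T hT f hf hP
  have hc : Conservative T μ := hT.conservative
  have h1 : ∀ M : ℕ, ∀ᵐ x ∂μ, x ∈ {x | |f x| ≤ M} → ∃ᶠ n in atTop, T^[n] x ∈ {x | |f x| ≤ M} :=
    fun M => hc.ae_mem_imp_frequently_image_mem
      (measurableSet_le hf.abs measurable_const).nullMeasurableSet
  filter_upwards [ae_all_iff.2 h1, hP] with x hx hPx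
  obtain ⟨P, hP⟩ := hPx
  obtain ⟨M, hM⟩ := exists_nat_ge |f x|
  have h2 := hx M hM
  by_cases hd : 0 < P.degree
  · exfalso
    have h3 := (P.abs_tendsto_atTop hd).comp (tendsto_natCast_atTop_atTop (R := ℝ))
    have h4 := h3.eventually (eventually_gt_atTop (M : ℝ))
    obtain ⟨n, hn, hn'⟩ := (h2.and_eventually h4).exists
    simp only [Set.mem_ofPred_eq, Function.comp_apply] at hn hn'
    rw [hP n] at hn
    linarith
  · have h5 : P = Polynomial.C (P.coeff 0) := Polynomial.eq_C_of_degree_le_zero (not_lt.1 hd)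
    have h6 := hP 1
    have h7 := hP 0
    rw [h5] at h6 h7
    simp only [Function.iterate_one, Polynomial.eval_C, Function.iterate_zero, id_eq] at h6 h7
    rw [h6, h7]

end Pool.Agent.W5h69.FM
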