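import Pool.Agent.W5h69.FM.Defs

/-!
# (Z) the power of `ω` does not vanish on the vectors `z`
-/

noncomputable section

namespace Pool.Agent.W5h69.FM

theorem om_z {r m : ℕ} (D : Refl r) (τ : Fin m → Fin r) (hτ : Function.Injective τ)
    (x y : Fin m × Bool) :
    om D.B (D.z τ x) (D.z τ y) =
      if x.1 = y.1 ∧ y.2 = !x.2 then (if x.2 then -1 else 1) else 0 := by
  obtain ⟨a, p⟩ := x
  obtain ⟨b, q⟩ := y
  have h0 : ∀ u : Vr r, bil D.B u 0 = 0 := fun u => by simp [bil]
  have h1 : ∀ u : Vr r, bil D.B 0 u = 0 := fun u => by simp [bil]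
  have h2 : ∀ u v : Vr r, bil D.B u v = bil D.B v u := fun u v => by
    unfold bil
    rw [Finset.sum_comm]
    refine Finset.sum_congr rfl fun i _ => Finset.sum_congr rfl fun j _ => ?_
    rw [D.symm]
    ring
  have h3 : bil D.B (D.ϖ (τ a)) (D.ρ (τ b)) = if a = b then 1 else 0 := by
    rw [h2, D.dual]
    by_cases h : a = b
    · simp [h]
    · rw [if_neg h, if_neg (fun h' => h (hτ h').symm)]
  have h4 : bil D.B (D.ρ (τ a)) (D.ϖ (τ b)) = if a = b then 1 else 0 := by
    rw [D.dual]
    by_cases h : a = b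
    · simp [h]
    · rw [if_neg h, if_neg (fun h' => h (hτ h'))]
  cases p <;> cases q <;> simp [om, Refl.z, h0, h1, h3, h4]
  by_cases h : a = b <;> simp [h]

/-- every term is nonnegative -/
theorem term_nonneg {r m : ℕ} (D : Refl r) (τ : Fin m → Fin r) (hτ : Function.Injective τ)
    (σ : Equiv.Perm (Fin m × Bool)) :
    0 ≤ ((Equiv.Perm.sign σ : ℤ) : ℝ) *
      ∏ j : Fin m, om D.B (D.z τ (σ (j, false))) (D.z τ (σ (j, true))) := by
  classical
  by_cases hz : ∏ j : Fin m, om D.B (D.z τ (σ (j, false))) (D.z τ (σ (j, true))) = 0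
  · rw [hz, mul_zero]
  have hz := Finset.prod_ne_zero_iff.1 hz
  have h1 : ∀ j, (σ (j, false)).1 = (σ (j, true)).1 ∧ (σ (j, true)).2 = !(σ (j, false)).2 := by
    intro j
    by_contra hcon
    apply hz j (Finset.mem_univ j)
    rw [om_z D τ hτ, if_neg hcon]
  set t : Fin m → Fin m := fun j => (σ (j, false)).1 with ht
  have hinj : Function.Injective t := by
    intro j k hjk
    simp only [ht] at hjk
    by_cases h2 : (σ (j, false)).2 = (σ (k, false)).2
    · have h3 : σ (j, false) = σ (k, false) := Prod.ext hjk h2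
      exact (Prod.ext_iff.1 (σ.injective h3)).1
    · have h3 : σ (j, true) = σ (k, false) := by
        refine Prod.ext ((h1 j).1.symm.trans hjk) ?_
        rw [(h1 j).2]
        revert h2
        cases (σ (j, false)).2 <;> cases (σ (k, false)).2 <;> simp
      exact (Prod.ext_iff.1 (σ.injective h3)).1
  set T : Equiv.Perm (Fin m) := Equiv.ofBijective t (Finite.injective_iff_bijective.1 hinj) with hT
  set F : Fin m → Equiv.Perm Bool := fun j => if (σ (j, false)).2 then Equiv.swap false true else 1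
    with hF
  have hσ : σ = Equiv.prodCongrLeft (fun _ : Bool => T) * Equiv.prodCongrRight F := by
    ext1 x
    obtain ⟨j, b⟩ := x
    simp only [Equiv.Perm.coe_mul, Function.comp_apply, Equiv.prodCongrRight_apply,
      Equiv.prodCongrLeft_apply]
    have hTj : T j = (σ (j, false)).1 := rfl
    rw [hTj]
    cases b
    · refine Prod.ext rfl ?_
      simp only [hF]
      cases h : (σ (j, false)).2 <;> simp
    · refine Prod.ext (h1 j).1.symm ?_
      rw [(h1 j).2]
      simp only [hF]
      cases h : (σ (j, false)).2 <;> simp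
  have hs : ((Equiv.Perm.sign σ : ℤ) : ℝ) = ∏ j, (if (σ (j, false)).2 then (-1 : ℝ) else 1) := by
    have h3 : Equiv.Perm.sign σ = ∏ j, Equiv.Perm.sign (F j) := by
      conv_lhs => rw [hσ]
      rw [Equiv.Perm.sign_mul, Equiv.Perm.sign_prodCongrLeft, Equiv.Perm.sign_prodCongrRight]
      simp
    rw [h3]
    push_cast
    refine Finset.prod_congr rfl fun j _ => ?_
    simp only [hF]
    cases h : (σ (j, false)).2 <;> simp
  rw [hs, ← Finset.prod_mul_distrib]
  refine Finset.prod_nonneg fun j _ => ?_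
  rw [om_z D τ hτ, if_pos (h1 j)]
  split_ifs <;> norm_num

theorem zz : S_Z := by
  classical
  intro r m D τ hτ
  unfold omPow
  apply ne_of_gt
  refine Finset.sum_pos' (fun σ _ => term_nonneg D τ hτ σ) ⟨1, Finset.mem_univ _, ?_⟩
  simp only [Equiv.Perm.sign_one, Units.val_one, Int.cast_one, one_mul, Equiv.Perm.coe_one, id]
  refine Finset.prod_pos fun j _ => ?_
  rw [om_z D τ hτ]
  simp

end Pool.Agent.W5h69.FM
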