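import Pool.Agent.W5h69.FM.A
import Pool.Agent.W5h69.FM.A2
import Pool.Agent.W5h69.FM.Bal
import Pool.Agent.W5h69.FM.C
import Pool.Agent.W5h69.FM.CC
import Pool.Agent.W5h69.FM.Erg
import Pool.Agent.W5h69.FM.Om
import Pool.Agent.W5h69.FM.Poly
import Pool.Agent.W5h69.FM.Z
import Pool.Agent.W5h69.FM.Rec
import Pool.Agent.W5h69.FM.Alg
import Pool.Agent.W5h69.FM.Const

/-! The core theorem. -/

open MeasureTheory Filter

noncomputable section

namespace Pool.Agent.W5h69.FM

theorem alg_all : S_ALG := alg (bal a a2) (cc (c a)) om_form om_inv zz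

theorem const_all : S_CONST := const poly rec_lemma erg

theorem actT_u1 {r : ℕ} (p : To r × To r) : actT (blockSL !![1, 1; 0, 1]) p = (p.1 + p.2, p.2) := by
  ext i <;> simp [actT, blockSL, Matrix.fromBlocks, Matrix.smul_apply, Matrix.one_apply]

theorem actT_u2 {r : ℕ} (p : To r × To r) : actT (blockSL !![1, 0; 1, 1]) p = (p.1, p.2 + p.1) := by
  ext i <;> simp [actT, blockSL, Matrix.fromBlocks, Matrix.smul_apply, Matrix.one_apply, add_comm]

theorem actV_u1 {r : ℕ} (p : Vr r × Vr r) : actV (blockSL !![1, 1; 0, 1]) p = (p.1 + p.2, p.2) := by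
  ext i <;> simp [actV, blockSL, Matrix.fromBlocks, Matrix.smul_apply, Matrix.one_apply]

theorem actV_u2 {r : ℕ} (p : Vr r × Vr r) : actV (blockSL !![1, 0; 1, 1]) p = (p.1, p.2 + p.1) := by
  ext i <;> simp [actV, blockSL, Matrix.fromBlocks, Matrix.smul_apply, Matrix.one_apply, add_comm]

theorem actV_W {r : ℕ} (W : Weyl r) (i : Fin r) (v : Vr r × Vr r) :
    actV (blockW (W.S i)) v =
      (v.1 - (2 * bil W.B (W.ρ i) v.1 / bil W.B (W.ρ i) (W.ρ i)) • W.ρ i,
       v.2 - (2 * bil W.B (W.ρ i) v.2 / bil W.B (W.ρ i) (W.ρ i)) • W.ρ i) := by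
  ext a
  · have h := W.refl i v.1 a
    simp only [actV, blockW, Matrix.fromBlocks_apply₁₁, Matrix.fromBlocks_apply₁₂,
      Matrix.zero_apply, Int.cast_zero, zero_mul, Finset.sum_const_zero, add_zero]
    exact h
  · have h := W.refl i v.2 a
    simp only [actV, blockW, Matrix.fromBlocks_apply₂₁, Matrix.fromBlocks_apply₂₂,
      Matrix.zero_apply, Int.cast_zero, zero_mul, Finset.sum_const_zero, zero_add]
    exact h

theorem core (hD : S_DUAL) (hMP : S_MP) {r : ℕ} (W : Weyl r) {ι : Type} [Fintype ι] [DecidableEq ι]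
    (α : To r × To r → Form r ι) (hm : ∀ v, Measurable fun p => α p v)
    (h1 : InvUnder (blockSL !![1, 1; 0, 1]) α) (h2 : InvUnder (blockSL !![1, 0; 1, 1]) α)
    (hW : ∀ i, InvUnder (blockW (W.S i)) α) : IsPower W.B α := by
  obtain ⟨β, hβ⟩ := const_all r ι α hm
    (by simpa only [InvUnder, actT_u1, actV_u1] using h1)
    (by simpa only [InvUnder, actT_u2, actV_u2] using h2)
  have hop : (volume : Measure (To r × To r)).IsOpenPosMeasure := by
    rw [Measure.volume_eq_prod]
    infer_instance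
  have hne : (volume : Measure (To r × To r)) ≠ 0 := by
    intro h0
    have h1 := isOpen_univ.measure_ne_zero (volume : Measure (To r × To r)) Set.univ_nonempty
    rw [h0] at h1
    simp at h1
  have : NeBot (ae (volume : Measure (To r × To r))) := ae_neBot.2 hne
  have h3 : ∀ (i : Fin r) (v : ι → Vr r × Vr r),
      β (fun t => actV (blockW (W.S i)) (v t)) = β v := by
    intro i v
    obtain ⟨p, hp1, hp2, hp3⟩ :=
      ((hW i).and (hβ.and ((hMP r W i).quasiMeasurePreserving.ae hβ))).exists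
    have h := hp1 v
    rw [hp2, hp3] at h
    exact h
  obtain ⟨D, hDB, hDρ⟩ := hD r W
  have hI : D.Inv β := by
    intro i v
    rw [← h3 i v]
    congr 1
    funext t
    rw [actV_W]
    simp only [Refl.s, hDB, hDρ]
  obtain ⟨ha, hb⟩ := alg_all r D ι β hI
  refine ⟨fun hodd => ?_, fun m e => ?_⟩
  · filter_upwards [hβ] with p hp
    rw [hp, ha hodd]
  · obtain ⟨c, hc⟩ := hb m e
    refine ⟨c, ?_⟩
    filter_upwards [hβ] with p hp v
    rw [hp, hc v, hDB]

theorem u1_mem (g : ℕ) : blockSL !![1, 1; 0, 1] ∈ Matrix.symplecticGroup (Fin g) ℤ := by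
  rw [SymplecticGroup.mem_iff]
  simp [blockSL, Matrix.J, Matrix.fromBlocks_transpose, Matrix.fromBlocks_multiply]

theorem u2_mem (g : ℕ) : blockSL !![1, 0; 1, 1] ∈ Matrix.symplecticGroup (Fin g) ℤ := by
  rw [SymplecticGroup.mem_iff]
  simp [blockSL, Matrix.J, Matrix.fromBlocks_transpose, Matrix.fromBlocks_multiply]

end Pool.Agent.W5h69.FM
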