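import Pool.Agent.W5h69.FM.Defs

/-!
# MP_d52947_gt, part 2: actions of integer matrices and the final statements
-/

open MeasureTheory

noncomputable section

namespace Pool.Agent.W5h69.FM

/-- An integer `2r × 2r` matrix acting on `T × T`. -/
def actT {r : ℕ} (A : Matrix (Fin r ⊕ Fin r) (Fin r ⊕ Fin r) ℤ) (p : To r × To r) :
    To r × To r :=
  (fun a => ∑ b, A (Sum.inl a) (Sum.inl b) • p.1 b + ∑ b, A (Sum.inl a) (Sum.inr b) • p.2 b,
   fun a => ∑ b, A (Sum.inr a) (Sum.inl b) • p.1 b + ∑ b, A (Sum.inr a) (Sum.inr b) • p.2 b)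

/-- Its differential, acting on `ℝ^r × ℝ^r`. -/
def actV {r : ℕ} (A : Matrix (Fin r ⊕ Fin r) (Fin r ⊕ Fin r) ℤ) (v : Vr r × Vr r) :
    Vr r × Vr r :=
  (fun a => ∑ b, (A (Sum.inl a) (Sum.inl b) : ℝ) * v.1 b +
      ∑ b, (A (Sum.inl a) (Sum.inr b) : ℝ) * v.2 b,
   fun a => ∑ b, (A (Sum.inr a) (Sum.inl b) : ℝ) * v.1 b +
      ∑ b, (A (Sum.inr a) (Sum.inr b) : ℝ) * v.2 b)

/-- The form `α` on `T × T` (a field of alternating maps) is invariant under `A` almost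
everywhere: the pullback of `α` under `actT A` is `α`. -/
def InvUnder {r : ℕ} {ι : Type} (A : Matrix (Fin r ⊕ Fin r) (Fin r ⊕ Fin r) ℤ)
    (α : To r × To r → Form r ι) : Prop :=
  ∀ᵐ p : To r × To r, ∀ v : ι → Vr r × Vr r,
    α (actT A p) (fun t => actV A (v t)) = α p v

/-- The action of a `2 × 2` integer matrix on `T ⊗ ℤ² = T × T`. -/
def blockSL {r : ℕ} (M : Matrix (Fin 2) (Fin 2) ℤ) : Matrix (Fin r ⊕ Fin r) (Fin r ⊕ Fin r) ℤ :=
  Matrix.fromBlocks (M 0 0 • 1) (M 0 1 • 1) (M 1 0 • 1) (M 1 1 • 1)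

/-- The diagonal action of an `r × r` integer matrix on `T × T`. -/
def blockW {r : ℕ} (S : Matrix (Fin r) (Fin r) ℤ) : Matrix (Fin r ⊕ Fin r) (Fin r ⊕ Fin r) ℤ :=
  Matrix.fromBlocks S 0 0 S

/-- An irreducible Weyl group acting on the cocharacter lattice `ℤ^r` of the torus: an invariant
inner product `B`, a basis `ρ` of `ℝ^r` (the simple coroots) whose graph of nonorthogonality is
connected, and integer matrices `S i`, the reflections in the `ρ i`. -/
structure Weyl (r : ℕ) where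
  B : Matrix (Fin r) (Fin r) ℝ
  symm : ∀ i j, B i j = B j i
  pos : ∀ x : Vr r, x ≠ 0 → 0 < bil B x x
  ρ : Fin r → Vr r
  indep : LinearIndependent ℝ ρ
  conn : ∀ i j, Relation.ReflTransGen (fun a b => bil B (ρ a) (ρ b) ≠ 0) i j
  S : Fin r → Matrix (Fin r) (Fin r) ℤ
  refl : ∀ (i : Fin r) (x : Vr r) (a : Fin r),
    ∑ b, (S i a b : ℝ) * x b = (x - (2 * bil B (ρ i) x / bil B (ρ i) (ρ i)) • ρ i) a

/-- `α` is almost everywhere a constant multiple of a power of `ω_B` (and `0` if the degree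
is odd). -/
def IsPower {r : ℕ} {ι : Type} [Fintype ι] (B : Matrix (Fin r) (Fin r) ℝ)
    (α : To r × To r → Form r ι) : Prop :=
  (Odd (Fintype.card ι) → ∀ᵐ p : To r × To r, α p = 0) ∧
  ∀ (m : ℕ) (e : Fin m × Bool ≃ ι), ∃ c : ℝ, ∀ᵐ p : To r × To r, ∀ v : ι → Vr r × Vr r,
    α p v = c * omPow B m (fun x => v (e x))

/-- (DUAL) the dual basis -/
def S_DUAL : Prop := ∀ (r : ℕ) (W : Weyl r), ∃ D : Refl r, D.B = W.B ∧ D.ρ = W.ρ

/-- (BG) the hyperoctahedral group -/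
def S_BG : Prop := ∀ g : ℕ, ∃ W : Weyl g, W.B = 1 ∧
  ∀ i, blockW (W.S i) ∈ Matrix.symplecticGroup (Fin g) ℤ

/-- (MP) the reflections preserve the Haar measure of `T × T` -/
def S_MP : Prop := ∀ (r : ℕ) (W : Weyl r) (i : Fin r),
  MeasurePreserving (actT (blockW (W.S i))) (volume : Measure (To r × To r)) volume

/-- (CONST) invariance under the two unipotents forces constancy -/
def S_CONST : Prop := ∀ (r : ℕ) (ι : Type) [Fintype ι] [DecidableEq ι]
  (α : To r × To r → Form r ι), (∀ v, Measurable fun p => α p v) →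
  (∀ᵐ p : To r × To r, ∀ v : ι → Vr r × Vr r,
    α (p.1 + p.2, p.2) (fun t => ((v t).1 + (v t).2, (v t).2)) = α p v) →
  (∀ᵐ p : To r × To r, ∀ v : ι → Vr r × Vr r,
    α (p.1, p.2 + p.1) (fun t => ((v t).1, (v t).2 + (v t).1)) = α p v) →
  ∃ β : Form r ι, ∀ᵐ p : To r × To r, α p = β

end Pool.Agent.W5h69.FM
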