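import Mathlib

/-!
# MP_d52947_gt : mapping-class-invariant measurable forms, genus one and `U(1)`

`To r × To r` is `T × T`, `T = ℝ^r/ℤ^r` the maximal torus; `SL(2,ℤ)` is the mapping class group of
the torus; the Weyl group acts diagonally.  Forms are alternating maps in variables indexed by `ι`.
-/

open MeasureTheory

noncomputable section

namespace Pool.Agent.W5h69.FM

/-- `ℝ^r`, the Lie algebra of the maximal torus. -/
abbrev Vr (r : ℕ) : Type := Fin r → ℝ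

/-- `T = (ℝ/ℤ)^r`. -/
abbrev To (r : ℕ) : Type := Fin r → UnitAddCircle

/-- Alternating forms on `ℝ^r × ℝ^r` in variables indexed by `ι`. -/
abbrev Form (r : ℕ) (ι : Type) : Type := AlternatingMap ℝ (Vr r × Vr r) ℝ ι

/-- The bilinear form with matrix `B`. -/
def bil {r : ℕ} (B : Matrix (Fin r) (Fin r) ℝ) (x y : Vr r) : ℝ := ∑ i, ∑ j, B i j * x i * y j

/-- The `2`-form `ω_B((x,y),(x',y')) = B(x,y') - B(y,x')`. -/
def om {r : ℕ} (B : Matrix (Fin r) (Fin r) ℝ) (u v : Vr r × Vr r) : ℝ :=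
  bil B u.1 v.2 - bil B u.2 v.1

/-- `2^m` times the `m`-th wedge power of `ω_B`. -/
def omPow {r : ℕ} (B : Matrix (Fin r) (Fin r) ℝ) (m : ℕ) (v : Fin m × Bool → Vr r × Vr r) : ℝ :=
  ∑ σ : Equiv.Perm (Fin m × Bool), ((Equiv.Perm.sign σ : ℤ) : ℝ) *
    ∏ j : Fin m, om B (v (σ (j, false))) (v (σ (j, true)))

/-- A basis `ρ` of `ℝ^r` and the dual basis `ϖ` for a symmetric form `B`; the graph of `ρ` is
connected. -/
structure Refl (r : ℕ) where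
  B : Matrix (Fin r) (Fin r) ℝ
  symm : ∀ i j, B i j = B j i
  ρ : Fin r → Vr r
  ϖ : Fin r → Vr r
  dual : ∀ i j, bil B (ρ i) (ϖ j) = if i = j then 1 else 0
  nz : ∀ i, bil B (ρ i) (ρ i) ≠ 0
  conn : ∀ i j, Relation.ReflTransGen (fun a b => bil B (ρ a) (ρ b) ≠ 0) i j

/-- The reflection `x ↦ x - 2 B(ρ_i,x)/B(ρ_i,ρ_i) ρ_i`. -/
def Refl.s {r : ℕ} (D : Refl r) (i : Fin r) (x : Vr r) : Vr r :=
  x - (2 * bil D.B (D.ρ i) x / bil D.B (D.ρ i) (D.ρ i)) • D.ρ i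

/-- invariance of a form under the diagonal action of the reflections -/
def Refl.Inv {r : ℕ} {ι : Type} (D : Refl r) (β : Form r ι) : Prop :=
  ∀ (i : Fin r) (v : ι → Vr r × Vr r), β (fun t => (D.s i (v t).1, D.s i (v t).2)) = β v

/-- the first basis `(ρ_i, 0), (0, ϖ_j)` -/
def Refl.b1 {r : ℕ} (D : Refl r) : Fin r ⊕ Fin r → Vr r × Vr r :=
  Sum.elim (fun i => (D.ρ i, 0)) (fun j => (0, D.ϖ j))

/-- the second basis `(ϖ_i, 0), (0, ρ_j)` -/
def Refl.b2 {r : ℕ} (D : Refl r) : Fin r ⊕ Fin r → Vr r × Vr r :=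
  Sum.elim (fun i => (D.ϖ i, 0)) (fun j => (0, D.ρ j))

/-- the vectors `(ρ_{τ j}, 0), (0, ϖ_{τ j})`, `j < m` -/
def Refl.z {r m : ℕ} (D : Refl r) (τ : Fin m → Fin r) : Fin m × Bool → Vr r × Vr r :=
  fun x => if x.2 then (0, D.ϖ (τ x.1)) else (D.ρ (τ x.1), 0)

/-- (A) -/
def S_A : Prop := ∀ (r : ℕ) (D : Refl r) (ι : Type) [Fintype ι] [DecidableEq ι] (β : Form r ι),
  D.Inv β → ∀ (v : ι → Fin r ⊕ Fin r) (i : Fin r), (∃ t, v t = Sum.inl i) →
    (∀ t, v t ≠ Sum.inr i) → β (fun t => D.b1 (v t)) = 0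

/-- (A2) mirror image of (A) -/
def S_A2 : Prop := ∀ (r : ℕ) (D : Refl r) (ι : Type) [Fintype ι] [DecidableEq ι] (β : Form r ι),
  D.Inv β → ∀ (v : ι → Fin r ⊕ Fin r) (i : Fin r), (∃ t, v t = Sum.inr i) →
    (∀ t, v t ≠ Sum.inl i) → β (fun t => D.b2 (v t)) = 0

/-- (BAL) a nonzero value has as many `ρ` as `ϖ` -/
def S_BAL : Prop := ∀ (r : ℕ) (D : Refl r) (ι : Type) [Fintype ι] [DecidableEq ι] (β : Form r ι),
  D.Inv β → ∀ (v : ι → Fin r ⊕ Fin r), Function.Injective v →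
    β (fun t => D.b1 (v t)) ≠ 0 →
    (∀ i, (∃ t, v t = Sum.inl i) ↔ ∃ t, v t = Sum.inr i)

/-- (C) sliding -/
def S_C : Prop := ∀ (r m : ℕ) (D : Refl r) (β : Form r (Fin m × Bool)), D.Inv β →
  ∀ (τ : Fin m → Fin r) (j : Fin m) (b : Fin r), Function.Injective τ →
    (∀ l, τ l ≠ b) → bil D.B (D.ρ (τ j)) (D.ρ b) ≠ 0 →
    β (D.z τ) = β (D.z (Function.update τ j b))

/-- (CC) all values agree -/
def S_CC : Prop := ∀ (r m : ℕ) (D : Refl r) (β : Form r (Fin m × Bool)), D.Inv β →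
  ∀ (τ τ' : Fin m → Fin r), Function.Injective τ → Function.Injective τ' →
    β (D.z τ) = β (D.z τ')

/-- (OM) the power of `ω` is an alternating form -/
def S_OM : Prop := ∀ (r : ℕ) (B : Matrix (Fin r) (Fin r) ℝ) (m : ℕ),
  ∃ Ω : Form r (Fin m × Bool), ∀ v, Ω v = omPow B m v

/-- (OI) invariance of the power of `ω` -/
def S_OI : Prop := ∀ (r m : ℕ) (D : Refl r) (i : Fin r) (v : Fin m × Bool → Vr r × Vr r),
  omPow D.B m (fun x => (D.s i (v x).1, D.s i (v x).2)) = omPow D.B m v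

/-- (Z) the power of `ω` does not vanish -/
def S_Z : Prop := ∀ (r m : ℕ) (D : Refl r) (τ : Fin m → Fin r), Function.Injective τ →
  omPow D.B m (D.z τ) ≠ 0

/-- (ALG) invariant constant forms -/
def S_ALG : Prop := ∀ (r : ℕ) (D : Refl r) (ι : Type) [Fintype ι] [DecidableEq ι] (β : Form r ι),
  D.Inv β → (Odd (Fintype.card ι) → β = 0) ∧
    ∀ (m : ℕ) (e : Fin m × Bool ≃ ι), ∃ c : ℝ, ∀ v : ι → Vr r × Vr r,
      β v = c * omPow D.B m (fun x => v (e x))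

/-- (ERG) ergodicity of `SL(2,ℤ)` on `T × T` -/
def S_ERG : Prop := ∀ (r : ℕ) (f : To r × To r → ℝ), Measurable f →
  (∀ᵐ p : To r × To r, f (p.1 + p.2, p.2) = f p) →
  (∀ᵐ p : To r × To r, f (p.1, p.2 + p.1) = f p) →
  ∃ c : ℝ, ∀ᵐ p : To r × To r, f p = c

/-- (REC) Poincare recurrence for polynomial cocycles -/
def S_REC : Prop := ∀ (X : Type) [MeasurableSpace X] (μ : Measure X) [IsFiniteMeasure μ]
  (T : X → X), MeasurePreserving T μ μ → ∀ f : X → ℝ, Measurable f →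
    (∀ᵐ x ∂μ, ∃ P : Polynomial ℝ, ∀ n : ℕ, f (T^[n] x) = P.eval (n : ℝ)) →
    ∀ᵐ x ∂μ, f (T x) = f x

/-- (POLY) -/
def S_POLY : Prop := ∀ (r : ℕ) (ι : Type) [Fintype ι] [DecidableEq ι] (β : Form r ι)
  (v w : ι → Vr r × Vr r), ∃ P : Polynomial ℝ, ∀ t : ℝ,
    β (fun i => v i + t • w i) = P.eval t

end Pool.Agent.W5h69.FM
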